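import Pool.Agent.Helper64.MH.Defs

/-! MH, part CELL: the inequality for one cell in coordinates. -/

set_option autoImplicit false

namespace MH.Helper71

open MeasureTheory MH
open scoped ENNReal

variable {I J : Type}

theorem upL_swap (A : Set ((I → ℝ) × (J → ℝ))) :
    upL (Prod.swap '' A) = Prod.swap ⁻¹' (upR A) := by
  ext z
  simp only [upL, upR, Set.mem_preimage, Set.mem_ofPred_eq, Set.mem_image]
  constructor
  · rintro ⟨_, ⟨p, hp, rfl⟩, h1, h2⟩
    exact ⟨p, hp, h2, h1⟩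
  · rintro ⟨p, hp, h1, h2⟩
    exact ⟨p.swap, ⟨p, hp, rfl⟩, h2, h1⟩

theorem w_swap [Fintype I] [Fintype J] (X : Set ((I → ℝ) × (J → ℝ))) : w (Prod.swap ⁻¹' X) = w X := by
  have hmp : MeasurePreserving (Prod.swap : (J → ℝ) × (I → ℝ) → (I → ℝ) × (J → ℝ))
      volume volume := Measure.measurePreserving_swap
  have he : MeasurableEmbedding (Prod.swap : (J → ℝ) × (I → ℝ) → (I → ℝ) × (J → ℝ)) :=
    MeasurableEquiv.prodComm.measurableEmbedding
  unfold w
  rw [← hmp.setLIntegral_comp_preimage_emb he]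
  refine lintegral_congr fun z => ?_
  simp only [Prod.fst_swap, Prod.snd_swap]
  rw [add_comm]

theorem cell (hU : S_UPLW) (hM : S_MIX) : S_CELL := by
  intro I J _ _ A hA
  classical
  have hAm : MeasurableSet A := by
    obtain ⟨K, hK, rfl⟩ := hA
    exact MeasurableSet.iUnion fun n => (hK n).measurableSet
  set f : (I → ℝ) × (J → ℝ) → ℝ≥0∞ := A.indicator
    (fun z => ENNReal.ofReal (Real.exp (-(5 / 8 * (∑ i, z.1 i + ∑ j, z.2 j))))) with hf
  have hfm : Measurable f := by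
    refine Measurable.indicator ?_ hAm
    fun_prop
  have f4 : ∀ z, f z ^ 4 = A.indicator
      (fun z => ENNReal.ofReal (Real.exp (-(5 / 2 * (∑ i, z.1 i + ∑ j, z.2 j))))) z := by
    intro z
    rw [hf]
    by_cases hz : z ∈ A
    · rw [Set.indicator_of_mem hz, Set.indicator_of_mem hz,
        ← ENNReal.ofReal_pow (Real.exp_pos _).le, ← Real.exp_nat_mul]
      congr 2
      push_cast
      ring
    · rw [Set.indicator_of_notMem hz, Set.indicator_of_notMem hz]
      norm_num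
  have f85 : ∀ z, f z ^ (8 / 5 : ℝ) = A.indicator
      (fun z => ENNReal.ofReal (Real.exp (-(∑ i, z.1 i + ∑ j, z.2 j)))) z := by
    intro z
    rw [hf]
    by_cases hz : z ∈ A
    · rw [Set.indicator_of_mem hz, Set.indicator_of_mem hz,
        ENNReal.ofReal_rpow_of_pos (Real.exp_pos _), ← Real.exp_mul]
      congr 2
      ring
    · rw [Set.indicator_of_notMem hz, Set.indicator_of_notMem hz]
      rw [ENNReal.zero_rpow_of_pos (by norm_num)]
  have hwA : w A = ∫⁻ x, ∫⁻ y, f (x, y) ^ (8 / 5 : ℝ) := by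
    rw [w, ← lintegral_indicator hAm]
    have h1 : ∀ z : (I → ℝ) × (J → ℝ), A.indicator
        (fun z => ENNReal.ofReal (Real.exp (-(∑ i, z.1 i + ∑ j, z.2 j)))) z =
        f z ^ (8 / 5 : ℝ) := fun z => (f85 z).symm
    simp only [h1]
    exact lintegral_prod _ (hfm.pow_const _).aemeasurable
  have h1 := hU I J A hA
  have h2 := hU J I (Prod.swap '' A) (hA.image continuous_swap)
  rw [upL_swap, w_swap] at h2
  have h3 := hM (I → ℝ) (J → ℝ) volume volume f hfm
  rw [← hwA] at h3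
  have e1 : ∀ (x : I → ℝ) (u : J → ℝ), A.indicator
      (fun z => ENNReal.ofReal (Real.exp (-(5 / 2 * (∑ i, z.1 i + ∑ j, z.2 j))))) (x, u) =
      f (x, u) ^ 4 := fun x u => (f4 (x, u)).symm
  have e2 : ∀ (x : I → ℝ) (u : J → ℝ), (Prod.swap '' A).indicator
      (fun z => ENNReal.ofReal (Real.exp (-(5 / 2 * (∑ i, z.1 i + ∑ j, z.2 j))))) (u, x) =
      f (x, u) ^ 4 := by
    intro x u
    rw [← e1]
    by_cases hz : (x, u) ∈ A
    · rw [Set.indicator_of_mem hz, Set.indicator_of_mem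
        (show ((u, x) : (J → ℝ) × (I → ℝ)) ∈ Prod.swap '' A from ⟨(x, u), hz, rfl⟩)]
      simp only
      rw [add_comm]
    · rw [Set.indicator_of_notMem hz, Set.indicator_of_notMem]
      rintro ⟨p, hp, hpe⟩
      apply hz
      have : p = (x, u) := by
        rw [← Prod.swap_swap p, hpe]
        rfl
      rwa [this] at hp
  simp only [e1] at h1
  simp only [e2] at h2
  set P := ∫⁻ u : J → ℝ, (∫⁻ x : I → ℝ, f (x, u) ^ 4) ^ (1 / 4 : ℝ) with hP
  set Q := ∫⁻ x : I → ℝ, (∫⁻ u : J → ℝ, f (x, u) ^ 4) ^ (1 / 4 : ℝ) with hQ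
  have hk : kk (Fintype.card I + Fintype.card J) =
      (ENNReal.ofReal ((5 / 8) ^ (Fintype.card J) * (5 / 2) ^ ((Fintype.card I : ℝ) / 4)) *
        ENNReal.ofReal ((5 / 8) ^ (Fintype.card I) * (5 / 2) ^ ((Fintype.card J : ℝ) / 4))) ^ 4 := by
    rw [kk, ← ENNReal.ofReal_mul (by positivity), ← ENNReal.ofReal_pow (by positivity)]
    congr 1
    have e3 : ∀ m : ℕ, ((5 / 2 : ℝ) ^ ((m : ℝ) / 4)) ^ 4 = (5 / 2) ^ m := by
      intro m
      rw [← Real.rpow_natCast, ← Real.rpow_mul (by norm_num), ← Real.rpow_natCast]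
      congr 1
      push_cast
      ring
    calc ((3125 / 8192 : ℝ)) ^ (Fintype.card I + Fintype.card J)
        = ((5 / 8 : ℝ) ^ 4 * (5 / 2)) ^ (Fintype.card I + Fintype.card J) := by norm_num
      _ = (5 / 8) ^ (4 * (Fintype.card I + Fintype.card J)) *
          (5 / 2) ^ (Fintype.card I + Fintype.card J) := by rw [mul_pow, ← pow_mul]
      _ = ((5 / 8) ^ (Fintype.card J)) ^ 4 * (5 / 2) ^ Fintype.card I *
          (((5 / 8) ^ (Fintype.card I)) ^ 4 * (5 / 2) ^ Fintype.card J) := by ring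
      _ = _ := by
        rw [← e3 (Fintype.card I), ← e3 (Fintype.card J)]
        ring
  rw [hk]
  calc _ ≤ (ENNReal.ofReal ((5 / 8) ^ (Fintype.card J) * (5 / 2) ^ ((Fintype.card I : ℝ) / 4)) *
        ENNReal.ofReal ((5 / 8) ^ (Fintype.card I) * (5 / 2) ^ ((Fintype.card J : ℝ) / 4))) ^ 4 *
        (Q ^ 4 * P ^ 4) := mul_le_mul_right h3 _
    _ = ((ENNReal.ofReal ((5 / 8) ^ (Fintype.card J) * (5 / 2) ^ ((Fintype.card I : ℝ) / 4)) * P) *
        (ENNReal.ofReal ((5 / 8) ^ (Fintype.card I) * (5 / 2) ^ ((Fintype.card J : ℝ) / 4)) *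
          Q)) ^ 4 := by ring
    _ ≤ _ := pow_le_pow_left' (mul_le_mul' h1 h2) 4

end MH.Helper71
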