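import Pool.Agent.Helper64.MH.Defs

/-! MH, part MINK: Minkowski's integral inequality for the fourth power. -/

set_option autoImplicit false

namespace MH.Helper71

open MeasureTheory MH
open scoped ENNReal

theorem sq_lintegral {Z : Type} [MeasurableSpace Z] (ν : Measure Z) (g : Z → ℝ≥0∞)
    (hg : Measurable g) :
    (∫⁻ z, g z ∂ν) ^ 2 = ∫⁻ z, ∫⁻ z', g z * g z' ∂ν ∂ν := by
  have h1 : ∀ z, ∫⁻ z', g z * g z' ∂ν = g z * ∫⁻ z', g z' ∂ν := fun z =>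
    lintegral_const_mul _ hg
  simp only [h1]
  rw [lintegral_mul_const _ hg, pow_two]

theorem cs {X : Type} [MeasurableSpace X] (μ : Measure X) (f g : X → ℝ≥0∞)
    (hf : Measurable f) (hg : Measurable g) :
    ∫⁻ x, f x * g x ∂μ ≤
      (∫⁻ x, f x ^ 2 ∂μ) ^ (1 / 2 : ℝ) * (∫⁻ x, g x ^ 2 ∂μ) ^ (1 / 2 : ℝ) := by
  have hc : (2 : ℝ).HolderConjugate 2 := by
    rw [Real.holderConjugate_iff]
    norm_num
  have h := ENNReal.lintegral_mul_le_Lp_mul_Lq μ hc hf.aemeasurable hg.aemeasurable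
  have h2 : ∀ z : ℝ≥0∞, z ^ (2 : ℝ) = z ^ 2 := fun z => by
    rw [← ENNReal.rpow_natCast]
    norm_num
  simp only [Pi.mul_apply, h2] at h
  exact h

theorem mink2 {X Z : Type} [MeasurableSpace X] [MeasurableSpace Z] (μ : Measure X)
    (ν : Measure Z) [SigmaFinite μ] [SigmaFinite ν] (g : X × Z → ℝ≥0∞) (hg : Measurable g) :
    ∫⁻ x, (∫⁻ z, g (x, z) ∂ν) ^ 2 ∂μ ≤
      (∫⁻ z, (∫⁻ x, g (x, z) ^ 2 ∂μ) ^ (1 / 2 : ℝ) ∂ν) ^ 2 := by
  have hx : ∀ x, Measurable fun z => g (x, z) := fun x => hg.comp measurable_prodMk_left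
  have hz : ∀ z, Measurable fun x => g (x, z) := fun z => hg.comp measurable_prodMk_right
  have e1 : ∫⁻ x, (∫⁻ z, g (x, z) ∂ν) ^ 2 ∂μ =
      ∫⁻ x, ∫⁻ z, ∫⁻ z', g (x, z) * g (x, z') ∂ν ∂ν ∂μ :=
    lintegral_congr fun x => sq_lintegral ν _ (hx x)
  have m3 : Measurable fun p : (X × Z) × Z => g (p.1.1, p.1.2) * g (p.1.1, p.2) := by
    refine Measurable.mul ?_ ?_
    · exact hg.comp measurable_fst
    · exact hg.comp ((measurable_fst.comp measurable_fst).prodMk measurable_snd)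
  have m4 : Measurable fun p : X × Z => ∫⁻ z', g (p.1, p.2) * g (p.1, z') ∂ν :=
    m3.lintegral_prod_right'
  have e2 : ∫⁻ x, ∫⁻ z, ∫⁻ z', g (x, z) * g (x, z') ∂ν ∂ν ∂μ =
      ∫⁻ z, ∫⁻ x, ∫⁻ z', g (x, z) * g (x, z') ∂ν ∂μ ∂ν :=
    lintegral_lintegral_swap m4.aemeasurable
  have e3 : ∀ z, ∫⁻ x, ∫⁻ z', g (x, z) * g (x, z') ∂ν ∂μ =
      ∫⁻ z', ∫⁻ x, g (x, z) * g (x, z') ∂μ ∂ν := by
    intro z
    refine lintegral_lintegral_swap (Measurable.aemeasurable ?_)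
    exact ((hz z).comp measurable_fst).mul hg
  have mA : Measurable fun z => (∫⁻ x, g (x, z) ^ 2 ∂μ) ^ (1 / 2 : ℝ) :=
    ((hg.pow_const 2).lintegral_prod_left').pow_const _
  rw [e1, e2, sq_lintegral ν _ mA]
  refine lintegral_mono fun z => ?_
  rw [e3 z]
  refine lintegral_mono fun z' => ?_
  exact cs μ _ _ (hz z) (hz z')

theorem mink : S_MINK := by
  intro X Y _ _ μ ν _ _ f hf
  have hx : ∀ x, Measurable fun y => f (x, y) := fun x => hf.comp measurable_prodMk_left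
  have hy : ∀ y, Measurable fun x => f (x, y) := fun y => hf.comp measurable_prodMk_right
  have mg : Measurable fun p : X × (Y × Y) => f (p.1, p.2.1) * f (p.1, p.2.2) := by
    refine Measurable.mul ?_ ?_
    · exact hf.comp (measurable_fst.prodMk (measurable_fst.comp measurable_snd))
    · exact hf.comp (measurable_fst.prodMk (measurable_snd.comp measurable_snd))
  have mA : Measurable fun y => (∫⁻ x, f (x, y) ^ 4 ∂μ) ^ (1 / 4 : ℝ) :=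
    ((hf.pow_const 4).lintegral_prod_left').pow_const _
  have e1 : ∀ x, (∫⁻ y, f (x, y) ∂ν) ^ 4 =
      (∫⁻ p : Y × Y, f (x, p.1) * f (x, p.2) ∂(ν.prod ν)) ^ 2 := by
    intro x
    have h1 : (∫⁻ y, f (x, y) ∂ν) ^ 4 = ((∫⁻ y, f (x, y) ∂ν) ^ 2) ^ 2 := by
      rw [← pow_mul]
    rw [h1, sq_lintegral ν _ (hx x), lintegral_prod _ (Measurable.aemeasurable ?_)]
    exact ((hx x).comp measurable_fst).mul ((hx x).comp measurable_snd)
  have h2 := mink2 μ (ν.prod ν) (fun p : X × (Y × Y) => f (p.1, p.2.1) * f (p.1, p.2.2)) mg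
  simp only at h2
  simp only [e1]
  refine h2.trans ?_
  have h3 : ∀ p : Y × Y, (∫⁻ x, (f (x, p.1) * f (x, p.2)) ^ 2 ∂μ) ^ (1 / 2 : ℝ) ≤
      (∫⁻ x, f (x, p.1) ^ 4 ∂μ) ^ (1 / 4 : ℝ) * (∫⁻ x, f (x, p.2) ^ 4 ∂μ) ^ (1 / 4 : ℝ) := by
    intro p
    have h4 := cs μ (fun x => f (x, p.1) ^ 2) (fun x => f (x, p.2) ^ 2)
      ((hy p.1).pow_const 2) ((hy p.2).pow_const 2)
    simp only [← pow_mul] at h4
    have h5 := ENNReal.rpow_le_rpow h4 (by norm_num : (0 : ℝ) ≤ 1 / 2)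
    rw [ENNReal.mul_rpow_of_nonneg _ _ (by norm_num : (0 : ℝ) ≤ 1 / 2), ← ENNReal.rpow_mul,
      ← ENNReal.rpow_mul] at h5
    have h6 : (1 / 2 * (1 / 2) : ℝ) = 1 / 4 := by norm_num
    rw [h6] at h5
    simp only [mul_pow]
    exact h5
  have h7 : ∫⁻ p : Y × Y, (∫⁻ x, (f (x, p.1) * f (x, p.2)) ^ 2 ∂μ) ^ (1 / 2 : ℝ) ∂(ν.prod ν) ≤
      (∫⁻ y, (∫⁻ x, f (x, y) ^ 4 ∂μ) ^ (1 / 4 : ℝ) ∂ν) ^ 2 := by
    refine (lintegral_mono h3).trans ?_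
    have m5 : Measurable fun p : Y × Y => (∫⁻ x, f (x, p.1) ^ 4 ∂μ) ^ (1 / 4 : ℝ) *
        (∫⁻ x, f (x, p.2) ^ 4 ∂μ) ^ (1 / 4 : ℝ) :=
      (mA.comp measurable_fst).mul (mA.comp measurable_snd)
    rw [lintegral_prod _ m5.aemeasurable, sq_lintegral ν _ mA]
  calc _ ≤ ((∫⁻ y, (∫⁻ x, f (x, y) ^ 4 ∂μ) ^ (1 / 4 : ℝ) ∂ν) ^ 2) ^ 2 := pow_le_pow_left' h7 2
    _ = _ := by rw [← pow_mul]

end MH.Helper71
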