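import Pool.Agent.Helper64.MH.Defs

/-! MH, part MIX: the mixed norm inequality. -/

set_option autoImplicit false

namespace MH.Helper71

open MeasureTheory MH
open scoped ENNReal

theorem hoelder {X : Type} [MeasurableSpace X] (μ : Measure X) (f g : X → ℝ≥0∞)
    (hf : Measurable f) (hg : Measurable g) {p q : ℝ} (hpq : p.HolderConjugate q) (a b c d : ℝ)
    (ha : a * p = c) (hb : b * q = d) :
    ∫⁻ x, f x ^ a * g x ^ b ∂μ ≤ (∫⁻ x, f x ^ c ∂μ) ^ (1 / p) * (∫⁻ x, g x ^ d ∂μ) ^ (1 / q) := by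
  have h := ENNReal.lintegral_mul_le_Lp_mul_Lq μ hpq (f := fun x => f x ^ a)
    (g := fun x => g x ^ b) (hf.pow_const a).aemeasurable (hg.pow_const b).aemeasurable
  simp only [Pi.mul_apply, ← ENNReal.rpow_mul, ha, hb] at h
  exact h

theorem mix (hM : S_MINK) : S_MIX := by
  intro X Y _ _ μ ν _ _ f hf
  have hc1 : (5 : ℝ).HolderConjugate (5 / 4) := by
    rw [Real.holderConjugate_iff]
    norm_num
  have hc2 : (5 / 4 : ℝ).HolderConjugate 5 := hc1.symm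
  have m1 : Measurable fun x => ∫⁻ y, f (x, y) ^ 4 ∂ν :=
    (hf.pow_const 4).lintegral_prod_right'
  have m2 : Measurable fun x => ∫⁻ y, f (x, y) ∂ν := hf.lintegral_prod_right'
  have h1 : ∀ x, ∫⁻ y, f (x, y) ^ (8 / 5 : ℝ) ∂ν ≤
      (∫⁻ y, f (x, y) ^ 4 ∂ν) ^ (1 / 5 : ℝ) * (∫⁻ y, f (x, y) ∂ν) ^ (4 / 5 : ℝ) := by
    intro x
    have hx : Measurable fun y => f (x, y) := hf.comp measurable_prodMk_left
    have h2 := hoelder ν (fun y => f (x, y)) (fun y => f (x, y)) hx hx hc1 (4 / 5) (4 / 5) 4 1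
      (by norm_num) (by norm_num)
    have h3 : (1 / (5 / 4) : ℝ) = 4 / 5 := by norm_num
    have h4 : ∀ y, f (x, y) ^ (4 : ℝ) = f (x, y) ^ 4 := fun y => by
      rw [← ENNReal.rpow_natCast]
      norm_num
    rw [h3] at h2
    simp only [ENNReal.rpow_one, h4] at h2
    refine le_trans (le_of_eq ?_) h2
    refine lintegral_congr fun y => ?_
    rw [← ENNReal.rpow_add_of_nonneg _ _ (by norm_num) (by norm_num)]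
    norm_num
  have h2 := hoelder μ (fun x => ∫⁻ y, f (x, y) ^ 4 ∂ν) (fun x => ∫⁻ y, f (x, y) ∂ν) m1 m2 hc2
    (1 / 5) (4 / 5) (1 / 4) 4 (by norm_num) (by norm_num)
  have h3 : (1 / (5 / 4) : ℝ) = 4 / 5 := by norm_num
  rw [h3] at h2
  have h4 : ∀ z : ℝ≥0∞, z ^ (4 : ℝ) = z ^ 4 := fun z => by
    rw [← ENNReal.rpow_natCast]
    norm_num
  simp only [h4] at h2
  have h5 : ∫⁻ x, ∫⁻ y, f (x, y) ^ (8 / 5 : ℝ) ∂ν ∂μ ≤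
      (∫⁻ x, (∫⁻ y, f (x, y) ^ 4 ∂ν) ^ (1 / 4 : ℝ) ∂μ) ^ (4 / 5 : ℝ) *
        (∫⁻ x, (∫⁻ y, f (x, y) ∂ν) ^ 4 ∂μ) ^ (1 / 5 : ℝ) :=
    (lintegral_mono h1).trans h2
  have h6 : ∀ z : ℝ≥0∞, (z ^ (4 / 5 : ℝ)) ^ 5 = z ^ 4 := fun z => by
    rw [← ENNReal.rpow_natCast, ← ENNReal.rpow_mul, ← h4]
    norm_num
  have h7 : ∀ z : ℝ≥0∞, (z ^ (1 / 5 : ℝ)) ^ 5 = z := fun z => by
    rw [← ENNReal.rpow_natCast, ← ENNReal.rpow_mul]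
    norm_num
  calc (∫⁻ x, ∫⁻ y, f (x, y) ^ (8 / 5 : ℝ) ∂ν ∂μ) ^ 5
      ≤ ((∫⁻ x, (∫⁻ y, f (x, y) ^ 4 ∂ν) ^ (1 / 4 : ℝ) ∂μ) ^ (4 / 5 : ℝ) *
        (∫⁻ x, (∫⁻ y, f (x, y) ∂ν) ^ 4 ∂μ) ^ (1 / 5 : ℝ)) ^ 5 := pow_le_pow_left' h5 5
    _ = (∫⁻ x, (∫⁻ y, f (x, y) ^ 4 ∂ν) ^ (1 / 4 : ℝ) ∂μ) ^ 4 *
        ∫⁻ x, (∫⁻ y, f (x, y) ∂ν) ^ 4 ∂μ := by rw [mul_pow, h6, h7]
    _ ≤ _ := mul_le_mul_right (hM X Y μ ν f hf) _

end MH.Helper71
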